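import Pool.Agent.Work.MP_b29d7f_ns.Basic2

/-! Block TAIL -/

set_option autoImplicit false

open Finset Filter Topology

namespace Pool.NS

namespace TAIL_

open Data

variable {R : Type} [CommRing R] {P : Data R} (S : Sq P)

/-- scales at the finest level -/
noncomputable abbrev rh (l : ℕ) : P.Ω → ℝ :=
  fun v => Real.exp (-(P.Mx (S.A l).card : ℝ)) * S.s l v

noncomputable abbrev mm (l : ℕ) : P.T → ℤ := fun t => S.j l t - P.Mx (S.A l).card

lemma rh_pos (l : ℕ) (v : P.Ω) : 0 < rh S l v := mul_pos (Real.exp_pos _) (S.s_pos l v)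

lemma deg_le (l : ℕ) : P.deg (rh S l) (mm S l) ≤ P.Nt := by
  have h := (stmt_KAPS R P S l (P.Mx (S.A l).card)).1
  have h2 := S.geo.lt_Mx_mul (S.A l).card
  unfold rh mm
  rw [h]
  unfold Sq.n
  linarith

lemma kap_sum {C₀ : ℝ}
    (hLB : ∀ l M : ℕ, M ≤ P.Mx (S.A l).card →
    (∀ (v : P.Ω) (ξ : E (P.e v)), 3 / 4 * Real.posLog ‖ξ‖ - C₀ ≤
      (S.n l)⁻¹ * ∑ b ∈ S.A l, Real.log (‖ξ - S.X l b v‖ ^ 2 + Real.exp (-(M : ℝ)) ^ 2) / 2) ∧
    (∀ (t : P.T) (x : R), x ≠ 0 → 3 / 4 * ((max (P.lev t x - S.j l t) 0 : ℤ) : ℝ) - C₀ ≤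
      (S.n l)⁻¹ * ∑ b ∈ S.A l, ((P.cap t (S.j l t - M) (x - b) - S.j l t : ℤ) : ℝ)) ∧
    (∀ t : P.T, -C₀ ≤
      (S.n l)⁻¹ * ∑ b ∈ S.A l, ((P.cap t (S.j l t - M) (0 - b) - S.j l t : ℤ) : ℝ)))
    (l : ℕ) (x : R) :
    S.n l * (Real.log (S.n l) + 3 / 4 * S.ex l x - C₀ * P.Nt) ≤
      ∑ b ∈ S.A l, P.kap (rh S l) (mm S l) (x - b) := by
  classical
  have hn := S.n_pos l
  set M := P.Mx (S.A l).card with hM
  obtain ⟨hV, hT, hT0⟩ := hLB l M le_rfl
  have hk : ∀ b ∈ S.A l, P.kap (rh S l) (mm S l) (x - b) = Real.log (S.n l)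
        + (∑ v, (P.e v : ℝ) *
            (Real.log (‖S.X l x v - S.X l b v‖ ^ 2 + Real.exp (-(M : ℝ)) ^ 2) / 2)
          + ∑ t, P.lq t * ((P.cap t (S.j l t - M) (x - b) - S.j l t : ℤ) : ℝ)) :=
    fun b _ => (stmt_KAPS R P S l M).2 x b
  rw [Finset.sum_congr rfl hk, Finset.sum_add_distrib, Finset.sum_add_distrib, Finset.sum_const,
    nsmul_eq_mul, Finset.sum_comm, Finset.sum_comm (s := S.A l) (t := (Finset.univ : Finset P.T))]
  have h1 : ∀ v : P.Ω, S.n l * ((P.e v : ℝ) * (3 / 4 * Real.posLog (‖P.em x v‖ / S.s l v) - C₀)) ≤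
      ∑ b ∈ S.A l, (P.e v : ℝ) *
            (Real.log (‖S.X l x v - S.X l b v‖ ^ 2 + Real.exp (-(M : ℝ)) ^ 2) / 2) := by
    intro v
    have h := hV v (S.X l x v)
    rw [inv_mul_eq_div, le_div_iff₀ hn, S.norm_X] at h
    rw [← Finset.mul_sum]
    have he : (0 : ℝ) ≤ P.e v := Nat.cast_nonneg _
    nlinarith [mul_le_mul_of_nonneg_left h he]
  have h2 : ∀ t : P.T, S.n l * (P.lq t * (3 / 4 *
      (if x = 0 then 0 else ((max (P.lev t x - S.j l t) 0 : ℤ) : ℝ)) - C₀)) ≤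
      ∑ b ∈ S.A l, P.lq t * ((P.cap t (S.j l t - M) (x - b) - S.j l t : ℤ) : ℝ) := by
    intro t
    rw [← Finset.mul_sum]
    have he : (0 : ℝ) ≤ P.lq t := (S.geo.lq_pos t).le
    by_cases hx : x = 0
    · have h := hT0 t
      rw [inv_mul_eq_div, le_div_iff₀ hn] at h
      rw [if_pos hx, hx]
      nlinarith [mul_le_mul_of_nonneg_left h he]
    · have h := hT t x hx
      rw [inv_mul_eq_div, le_div_iff₀ hn] at h
      rw [if_neg hx]
      nlinarith [mul_le_mul_of_nonneg_left h he]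
  have h3 := Finset.sum_le_sum fun v (_ : v ∈ (Finset.univ : Finset P.Ω)) => h1 v
  have h4 := Finset.sum_le_sum fun t (_ : t ∈ (Finset.univ : Finset P.T)) => h2 t
  have h5 : S.n l * (Real.log (S.n l) + 3 / 4 * S.ex l x - C₀ * P.Nt) =
      (S.n l) * Real.log (S.n l) +
      (∑ v : P.Ω, S.n l * ((P.e v : ℝ) * (3 / 4 * Real.posLog (‖P.em x v‖ / S.s l v) - C₀)) +
        ∑ t : P.T, S.n l * (P.lq t * (3 / 4 *
      (if x = 0 then 0 else ((max (P.lev t x - S.j l t) 0 : ℤ) : ℝ)) - C₀))) := by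
    unfold Sq.ex Data.exc Data.Nt
    simp only [← Finset.mul_sum, mul_sub, Finset.sum_sub_distrib, mul_add]
    have e1 : ∀ f : P.Ω → ℝ, ∑ v, (P.e v : ℝ) * (3 / 4 * f v) = 3 / 4 * ∑ v, (P.e v : ℝ) * f v := by
      intro f
      rw [Finset.mul_sum]
      exact Finset.sum_congr rfl fun v _ => by ring
    have e2 : ∀ f : P.T → ℝ, ∑ v, P.lq v * (3 / 4 * f v) = 3 / 4 * ∑ v, P.lq v * f v := by
      intro f
      rw [Finset.mul_sum]
      exact Finset.sum_congr rfl fun v _ => by ring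
    rw [e1, e2, ← Finset.sum_mul, ← Finset.sum_mul]
    ring
  rw [h5]
  have h6 : ((S.A l).card : ℝ) = S.n l := rfl
  rw [h6]
  linarith

end TAIL_

open TAIL_ in
theorem stmt_TAIL (hLB : Stmt_LB) : Stmt_TAIL := by
  classical
  intro R _ P S
  obtain ⟨C₀, hC₀, h⟩ := hLB R P S
  have hNt := S.geo.Nt_pos
  set C' := C₀ * P.Nt + |S.C₁| + P.Nt with hC'
  have hC'pos : 0 ≤ C' := by positivity
  -- lower bound for the gaps
  have key : ∀ l, ∀ x ∈ S.A l, S.n l * (3 / 4 * S.ex l x - C') ≤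
      ∑ b ∈ S.A l, P.gap (rh S l) (mm S l) (x - b) := by
    intro l x hx
    have hn1 := S.one_le_n l
    have h1 := kap_sum S h l x
    have h2 := S.geo.sum_ln (rh_pos S l) (mm S l) hx
    have h3 := (S.opt l).pot x hx
    have h4 := deg_le S l
    have h5 : ((S.A l).card : ℝ) = S.n l := rfl
    rw [h5] at h3
    have h6 : S.n l * S.C₁ ≤ S.n l * |S.C₁| :=
      mul_le_mul_of_nonneg_left (le_abs_self _) (by linarith)
    have h7 : P.Nt ≤ S.n l * P.Nt := by nlinarith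
    rw [hC']
    nlinarith
  have keyS : ∀ l, ∑ x ∈ S.A l, ∑ b ∈ S.A l, P.gap (rh S l) (mm S l) (x - b) ≤
      S.C * Real.exp (-(S.c * P.Mx (S.A l).card)) * S.n l ^ 2 := by
    intro l
    exact (S.frame l).gapM (P.Mx (S.A l).card) le_rfl
  refine ⟨max 1 (max (4 * C') (4 / 3 * (C' + S.C))), le_max_left _ _, ?_, ?_⟩
  · refine Eventually.of_forall fun l => ?_
    have hn := S.n_pos l
    have h1 := Finset.sum_le_sum (key l)
    have h2 := keyS l
    have h3 : ∑ x ∈ S.A l, S.n l * (3 / 4 * S.ex l x - C') =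
        S.n l * (3 / 4 * ∑ x ∈ S.A l, S.ex l x - S.n l * C') := by
      rw [← Finset.mul_sum, Finset.sum_sub_distrib, Finset.mul_sum, Finset.sum_const, nsmul_eq_mul]
      rfl
    rw [h3] at h1
    have h4 : Real.exp (-(S.c * P.Mx (S.A l).card)) ≤ 1 := by
      apply Real.exp_le_one_iff.2
      have := S.hc
      have : 0 ≤ S.c * (P.Mx (S.A l).card : ℝ) := by positivity
      linarith
    have h5 : S.C * Real.exp (-(S.c * P.Mx (S.A l).card)) * S.n l ^ 2 ≤ S.C * S.n l ^ 2 := by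
      have := S.hC
      have h6 : S.C * Real.exp (-(S.c * P.Mx (S.A l).card)) ≤ S.C * 1 :=
        mul_le_mul_of_nonneg_left h4 this.le
      nlinarith [sq_nonneg (S.n l)]
    have h6 : S.n l * (3 / 4 * ∑ x ∈ S.A l, S.ex l x - S.n l * C') ≤ S.n l * (S.C * S.n l) := by
      nlinarith
    have h7 := le_of_mul_le_mul_left h6 hn
    have h8 : ∑ x ∈ S.A l, S.ex l x ≤ 4 / 3 * (C' + S.C) * S.n l := by nlinarith
    refine h8.trans ?_
    apply mul_le_mul_of_nonneg_right _ hn.le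
    exact le_trans (le_max_right _ _) (le_max_right _ _)
  · intro ε hε
    have hlim := S.exp_Mx_tendsto
    have hlim2 : Tendsto (fun l => 2 * S.C * Real.exp (-(S.c * P.Mx (S.A l).card))) atTop (𝓝 0) := by
      have := hlim.const_mul (2 * S.C)
      rwa [mul_zero] at this
    filter_upwards [hlim2.eventually_le_const hε] with l hl
    have hn := S.n_pos l
    set F := (S.A l).filter (fun x => max 1 (max (4 * C') (4 / 3 * (C' + S.C))) ≤ S.ex l x) with hF
    have h1 : ∀ x ∈ F, S.n l * (S.ex l x / 2) ≤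
        ∑ b ∈ S.A l, P.gap (rh S l) (mm S l) (x - b) := by
      intro x hx
      rw [hF, Finset.mem_filter] at hx
      have h2 : 4 * C' ≤ S.ex l x :=
        le_trans (le_trans (le_max_left _ _) (le_max_right _ _)) hx.2
      refine le_trans ?_ (key l x hx.1)
      apply mul_le_mul_of_nonneg_left _ hn.le
      linarith
    have h2 := Finset.sum_le_sum h1
    have h3 : ∑ x ∈ F, ∑ b ∈ S.A l, P.gap (rh S l) (mm S l) (x - b) ≤
        ∑ x ∈ S.A l, ∑ b ∈ S.A l, P.gap (rh S l) (mm S l) (x - b) := by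
      apply Finset.sum_le_sum_of_subset_of_nonneg (Finset.filter_subset _ _)
      intro x _ _
      exact Finset.sum_nonneg fun b _ => S.geo.gap_nonneg _ _ _
    have h4 : ∑ x ∈ F, S.n l * (S.ex l x / 2) = S.n l * (∑ x ∈ F, S.ex l x) / 2 := by
      rw [← Finset.mul_sum, ← Finset.sum_div]; ring
    rw [h4] at h2
    have h5 := keyS l
    have h6 : S.n l * (∑ x ∈ F, S.ex l x) ≤ S.n l * (ε * S.n l) := by
      nlinarith [mul_le_mul_of_nonneg_right hl (sq_nonneg (S.n l))]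
    exact le_of_mul_le_mul_left h6 hn

end Pool.NS
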