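import Pool.Agent.Work.MP_b29d7f_ns.Basic2

/-! Block UB -/

set_option autoImplicit false

open Finset Filter Topology

namespace Pool.NS

namespace UB_

open Data

variable {R : Type} [CommRing R] {P : Data R} (S : Sq P)

lemma log_le_aux {a b c e : ℝ} (ha : 0 ≤ a) (hb : 0 ≤ b) (hc : 0 ≤ c) (hcab : c ≤ a + b)
    (he : 0 < e) (he1 : e ≤ 1) :
    Real.log (c ^ 2 + e ^ 2) / 2 ≤ Real.posLog a + Real.posLog b + 2 * Real.log 2 := by
  have h1 : c ^ 2 + e ^ 2 ≤ (a + b + 1) ^ 2 := by nlinarith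
  have h2 : a + b + 1 ≤ 4 * (max 1 a * max 1 b) := by
    have h3 : 1 ≤ max 1 a := le_max_left _ _
    have h4 : a ≤ max 1 a := le_max_right _ _
    have h5 : 1 ≤ max 1 b := le_max_left _ _
    have h6 : b ≤ max 1 b := le_max_right _ _
    nlinarith
  have hA : 0 < max 1 a := lt_of_lt_of_le one_pos (le_max_left _ _)
  have hB : 0 < max 1 b := lt_of_lt_of_le one_pos (le_max_left _ _)
  have h3 : Real.log (c ^ 2 + e ^ 2) ≤ Real.log ((4 * (max 1 a * max 1 b)) ^ 2) := by
    apply Real.log_le_log (by positivity)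
    apply h1.trans
    apply pow_le_pow_left₀ (by positivity) h2
  have h4 : Real.log ((4 * (max 1 a * max 1 b)) ^ 2)
      = 2 * (2 * Real.log 2 + (Real.log (max 1 a) + Real.log (max 1 b))) := by
    rw [Real.log_pow, Real.log_mul (by norm_num) (by positivity), Real.log_mul hA.ne' hB.ne']
    have : Real.log 4 = 2 * Real.log 2 := by
      rw [show (4 : ℝ) = 2 ^ 2 by norm_num, Real.log_pow]; push_cast; ring
    rw [this]; push_cast; ring
  have h5 : ∀ x : ℝ, Real.log (max 1 x) ≤ Real.posLog x := by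
    intro x
    rcases le_total x 1 with h | h
    · rw [max_eq_left h, Real.log_one]; exact Real.posLog_nonneg
    · rw [max_eq_right h]; exact le_max_right _ _
  have h6 := h5 a
  have h7 := h5 b
  linarith

open scoped Classical in
lemma cap_le_aux (l M : ℕ) (t : P.T) (x b : R) :
    P.cap t (S.j l t - M) (x - b) - S.j l t ≤
      (if x = 0 then 0 else max (P.lev t x - S.j l t) 0)
      + (if b = 0 then 0 else max (P.lev t b - S.j l t) 0) := by
  classical
  have h := S.geo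
  by_cases hxb : x - b = 0
  · rw [hxb, cap_zero]
    split_ifs <;> omega
  unfold cap
  rw [if_neg hxb]
  by_cases hx : x = 0
  · by_cases hb : b = 0
    · exact absurd (by rw [hx, hb, sub_zero]) hxb
    · rw [if_pos hx, if_neg hb, hx, zero_sub, h.lev_neg]
      omega
  · by_cases hb : b = 0
    · rw [if_neg hx, if_pos hb, hb, sub_zero]
      omega
    · rw [if_neg hx, if_neg hb]
      have h1 := h.lev_add t x (-b) hx (neg_ne_zero.2 hb) (by rwa [← sub_eq_add_neg])
      rw [← sub_eq_add_neg, h.lev_neg] at h1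
      omega

end UB_

open UB_ in
theorem stmt_UB (hT : Stmt_TAIL) : Stmt_UB := by
  classical
  intro R _ P S
  obtain ⟨C, hC1, hC, -⟩ := hT R P S
  have hlq : ∀ t, 0 < P.lq t := S.geo.lq_pos
  have hs : 0 ≤ ∑ t, (P.lq t)⁻¹ := Finset.sum_nonneg fun t _ => (inv_pos.2 (hlq t)).le
  have hl2 : 0 ≤ Real.log 2 := Real.log_nonneg (by norm_num)
  refine ⟨C + 2 * Real.log 2 + C * ∑ t, (P.lq t)⁻¹, by positivity, ?_⟩
  filter_upwards [hC] with l hl
  have hn := S.n_pos l
  -- finite places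
  have hfin : ∀ t : P.T, ∑ b ∈ S.A l,
      (((if b = 0 then 0 else max (P.lev t b - S.j l t) 0) : ℤ) : ℝ) ≤
      (C * ∑ t, (P.lq t)⁻¹) * S.n l := by
    intro t
    have h1 : ∀ b ∈ S.A l, (((if b = 0 then 0 else max (P.lev t b - S.j l t) 0) : ℤ) : ℝ)
        ≤ (P.lq t)⁻¹ * S.ex l b := by
      intro b _
      by_cases hb : b = 0
      · rw [if_pos hb]
        push_cast
        exact mul_nonneg (inv_pos.2 (hlq t)).le (S.ex_nonneg l b)
      · rw [if_neg hb]
        have := S.lev_le_ex l hb t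
        rw [inv_mul_eq_div, le_div_iff₀ (hlq t)]
        linarith
    refine (Finset.sum_le_sum h1).trans ?_
    rw [← Finset.mul_sum]
    have h2 : (P.lq t)⁻¹ ≤ ∑ t, (P.lq t)⁻¹ :=
      Finset.single_le_sum (f := fun t => (P.lq t)⁻¹) (fun t _ => (inv_pos.2 (hlq t)).le)
        (Finset.mem_univ t)
    have h3 : 0 ≤ ∑ b ∈ S.A l, S.ex l b := Finset.sum_nonneg fun b _ => S.ex_nonneg l b
    calc (P.lq t)⁻¹ * ∑ b ∈ S.A l, S.ex l b ≤ (∑ t, (P.lq t)⁻¹) * (C * S.n l) :=
          mul_le_mul h2 hl h3 hs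
      _ = _ := by ring
  have hfin2 : ∀ (t : P.T) (x : R) (M : ℕ),
      ∑ b ∈ S.A l, ((P.cap t (S.j l t - M) (x - b) - S.j l t : ℤ) : ℝ) ≤
        S.n l * ((((if x = 0 then 0 else max (P.lev t x - S.j l t) 0) : ℤ) : ℝ)
          + C * ∑ t, (P.lq t)⁻¹) := by
    intro t x M
    have h1 : ∀ b ∈ S.A l, ((P.cap t (S.j l t - M) (x - b) - S.j l t : ℤ) : ℝ) ≤
        (((if x = 0 then 0 else max (P.lev t x - S.j l t) 0) : ℤ) : ℝ) +
        (((if b = 0 then 0 else max (P.lev t b - S.j l t) 0) : ℤ) : ℝ) := by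
      intro b _
      exact_mod_cast cap_le_aux S l M t x b
    refine (Finset.sum_le_sum h1).trans ?_
    rw [Finset.sum_add_distrib, Finset.sum_const, nsmul_eq_mul]
    have h2 := hfin t
    have h3 : ((S.A l).card : ℝ) = S.n l := rfl
    rw [h3]
    linarith
  intro M
  refine ⟨?_, ?_, ?_⟩
  · intro v ξ
    rw [inv_mul_eq_div, div_le_iff₀ hn]
    have h1 : ∀ b ∈ S.A l, Real.log (‖ξ - S.X l b v‖ ^ 2 + Real.exp (-(M : ℝ)) ^ 2) / 2 ≤
        (Real.posLog ‖ξ‖ + 2 * Real.log 2) + S.ex l b := by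
      intro b _
      have h2 := log_le_aux (norm_nonneg ξ) (norm_nonneg (S.X l b v))
        (norm_nonneg (ξ - S.X l b v)) (norm_sub_le _ _) (Real.exp_pos (-(M : ℝ)))
        (Real.exp_le_one_iff.2 (by simp))
      have h3 := S.posLog_le_ex l b v
      linarith
    refine (Finset.sum_le_sum h1).trans ?_
    rw [Finset.sum_add_distrib, Finset.sum_const, nsmul_eq_mul]
    have h3 : ((S.A l).card : ℝ) = S.n l := rfl
    rw [h3]
    have h4 : 0 ≤ C * ∑ t, (P.lq t)⁻¹ := by positivity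
    nlinarith [mul_nonneg h4 hn.le]
  · intro t x hx
    rw [inv_mul_eq_div, div_le_iff₀ hn]
    have h1 := hfin2 t x M
    rw [if_neg hx] at h1
    nlinarith
  · intro t
    rw [inv_mul_eq_div, div_le_iff₀ hn]
    have h1 := hfin2 t 0 M
    rw [if_pos rfl] at h1
    push_cast at h1 ⊢
    nlinarith

end Pool.NS
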